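import Mathlib
import Pool.Agent.helper60.MW.SpecB

set_option autoImplicit false

/-!
Moser's worm problem, row SEL: selection of the scales
-/

namespace Pool.Agent.MW

open MeasureTheory Set Pool.Agent.helper17.Worm

private lemma SEL_kap_pos (j : ℕ) : 0 < kap j := by unfold kap; positivity

private lemma SEL_kap_le (j : ℕ) : kap j ≤ 1 / 8 := by
  unfold kap
  rw [pow_add]
  have h1 : (1 : ℝ) ≤ 2 ^ j := one_le_pow₀ (by norm_num)
  rw [div_le_div_iff₀ (by positivity) (by norm_num)]
  nlinarith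

private lemma SEL_kap_le' (j : ℕ) : kap j ≤ 1 / 2 ^ j := by
  unfold kap
  apply one_div_le_one_div_of_le (by positivity)
  exact pow_le_pow_right₀ (by norm_num) (by omega)

theorem SEL (hTOT : TOT_stmt) (hSCL : SCL_stmt) (hONE : ONE_stmt) : SEL_stmt := by
  intro ι D M hT hM0 hM1 hmass
  have hmass1 : ∑' i, mass (D i) 0 ≤ 1 := by
    refine hmass.trans ?_
    rw [← ENNReal.ofReal_one]
    exact ENNReal.ofReal_le_ofReal hM1
  obtain ⟨E, hEm, hEb, hE⟩ := hTOT ι D hT hmass1
  have key : ∀ j : ℕ, ∃ (a W : ℝ) (K L : ℕ), Good (kap j) (kap j) a K L W ∧ 0 ≤ W ∧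
      W ≤ 1 / 2 ^ j ∧ ∑' i, volume (HH (D i L) L (kap j) W K) ≤
        ENNReal.ofReal ((1 + 2 * kap j) ^ 2 / (1 - 4 * kap j) * M + kap j) := by
    intro j
    have hk0 := SEL_kap_pos j
    have hk8 := SEL_kap_le j
    have hkj := SEL_kap_le' j
    obtain ⟨Lmax, hL⟩ := hSCL (kap j) (kap j) (kap j) (kap j) j hk0 hk8 hk0 (by linarith) hk0 hk0
    obtain ⟨L, r, K, a, W, hL0, hLm, hG, hW0, hWt, hfin⟩ := hL E hEm hEb
    have hK1 : 1 ≤ K := hG.2.2.2.2.2.2.2.1
    have h2L : (1 : ℝ) ≤ 2 ^ L := one_le_pow₀ (by norm_num)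
    refine ⟨a, W, K, L + r, hG, hW0, ?_, ?_⟩
    · have : W ≤ W * 2 ^ L := by nlinarith
      linarith
    · set A : ℝ := (1 + 2 * W * 2 ^ L) ^ 2 / (1 - 4 * kap j) with hA
      set B : ℝ := (1 + 2 * W * 2 ^ (L + r)) ^ 2 / (4 * kap j ^ 2 * K) with hB
      have hpos : 0 < 1 - 4 * kap j := by linarith
      have hA0 : 0 ≤ A := by rw [hA]; positivity
      have hB0 : 0 ≤ B := by rw [hB]; positivity
      have hAle : A ≤ (1 + 2 * kap j) ^ 2 / (1 - 4 * kap j) := by
        rw [hA]
        have h0 : 0 ≤ W * 2 ^ L := by positivity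
        gcongr ?_ / _
        have : 2 * W * 2 ^ L = 2 * (W * 2 ^ L) := by ring
        rw [this]
        gcongr
      have hdE : 0 ≤ E (L + r) - E L := by
        have := hEm (Nat.le_add_right L r)
        linarith
      calc ∑' i, volume (HH (D i (L + r)) (L + r) (kap j) W K)
          ≤ ∑' i, (ENNReal.ofReal A * mass (D i) 0 + ENNReal.ofReal B * va (D i) L r) :=
            ENNReal.tsum_le_tsum fun i => hONE (D i) (hT i) L r K (kap j) W hk0 hk8 hW0 hK1
        _ = ENNReal.ofReal A * ∑' i, mass (D i) 0 + ENNReal.ofReal B * ∑' i, va (D i) L r := by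
            rw [ENNReal.tsum_add, ENNReal.tsum_mul_left, ENNReal.tsum_mul_left]
        _ ≤ ENNReal.ofReal A * ENNReal.ofReal M +
              ENNReal.ofReal B * ENNReal.ofReal (E (L + r) - E L) := by
            gcongr
            exact hE L r
        _ = ENNReal.ofReal (A * M + B * (E (L + r) - E L)) := by
            rw [← ENNReal.ofReal_mul hA0, ← ENNReal.ofReal_mul hB0, ENNReal.ofReal_add]
            · positivity
            · positivity
        _ ≤ ENNReal.ofReal ((1 + 2 * kap j) ^ 2 / (1 - 4 * kap j) * M + kap j) := by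
            apply ENNReal.ofReal_le_ofReal
            have := mul_le_mul_of_nonneg_right hAle hM0
            linarith
  choose a W K L h using key
  exact ⟨a, W, K, L, h⟩

end Pool.Agent.MW
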